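import Pool.Agent.Q156.BW.B9

/-!
The Liouville function at the values of `G · (F + k)` in all progressions: `F` a fixed polynomial of
degree `d ≥ 2`, `G` an ARBITRARY fixed polynomial and almost all `k`; more generally the Liouville
function at `F(m) + k` against arbitrary weights `w(m)`.

Method: the second moment over `k` of the weighted sum over the values `0 < F(m) + k ≤ Y` is the
sum over the pairs `m, m'` of `w(m) w(m')` times the autocorrelation of `λ` on `[1,Y]` at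
`F(m') - F(m)`. The inequality of Cauchy and Schwarz removes the weights and leaves the squares of
the autocorrelations; the square of the autocorrelation at `h` is the sum over `l` of the
autocorrelations at `h` of `v ↦ λ(v) λ(v + l)`, so that the inverse theorem for the Weyl sums of
`F(m + δ) - F(m)` applies for every `l`, and Davenport's bound saves an arbitrary power of the
logarithm.
-/

set_option autoImplicit false

namespace Pool.Agent.Results.MP_648c71_nt.FixedFactor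

open Finset
open scoped Polynomial

/-- the Liouville function on the integers: `(-1)^Ω(|v|)` for `v ≠ 0`, and `0` at `0` -/
noncomputable def lam (v : ℤ) : ℤ := if v = 0 then 0 else (-1) ^ ArithmeticFunction.cardFactors v.natAbs

lemma lam_cast (v : ℤ) : ((lam v : ℤ) : ℝ) = Pool.Agent.TH892.LW.lam v := by
  unfold lam Pool.Agent.TH892.LW.lam
  split_ifs <;> push_cast <;> rfl

lemma lam_mul (u v : ℤ) : lam (u * v) = lam u * lam v := by
  unfold lam
  by_cases hu : u = 0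
  · simp [hu]
  by_cases hv : v = 0
  · simp [hv]
  rw [if_neg (mul_ne_zero hu hv), if_neg hu, if_neg hv, Int.natAbs_mul,
    ArithmeticFunction.cardFactors_mul (by omega) (by omega), pow_add]

lemma lam_abs (v : ℤ) : ‖((lam v : ℤ) : ℂ)‖ ≤ 1 := by
  unfold lam
  split_ifs
  · simp
  · push_cast
    rw [norm_pow, norm_neg, norm_one, one_pow]

lemma rt_eq (k x : ℕ) (d : ℕ) (hd : d = k + 1) :
    Pool.Agent.TH204.WR.rt k x ^ k = (x : ℝ) ^ (1 - 1 / (d : ℝ)) := by
  unfold Pool.Agent.TH204.WR.rt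
  rw [← Real.rpow_natCast, ← Real.rpow_mul (Nat.cast_nonneg _)]
  congr 1
  rw [hd]
  push_cast
  have : (k : ℝ) + 1 ≠ 0 := by positivity
  field_simp
  ring

/-- **The Liouville function at the values of `G · (F + k)` in all progressions, for an arbitrary
fixed `G` and almost all `k`.** Let `F` be an integer polynomial of degree `d ≥ 2` and let `U`, `C`,
`K` be natural numbers. There are `B` and `X₀` such that for all `X ≥ X₀`:
* for ALL complex weights `w(m)`, `|w(m)| ≤ 1`, all but at most `X / (log X)^U` of the integers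
  `|k| ≤ X` have the property that for ALL `q ≤ (log X)^K`, all `r` and ALL windows `a < m ≤ b`
  with `b - a ≥ (log X)^B` on which `|F(m) + k| ≤ (b - a) X^(1 - 1/d) (log X)^C` the sums of
  `w(m) λ(F(m) + k)` and of `w(m) μ(|F(m) + k|)` over the `m ≡ r` modulo `q` in the window are at
  most `(b - a) / (log X)^U` in absolute value;
* for ALL integer polynomials `G` all but at most `X / (log X)^U` of the integers `|k| ≤ X` have the
  property that for all these `q`, `r` and windows the sum of `λ(G(m) (F(m) + k))` over the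
  `m ≡ r` modulo `q` in the window is at most `(b - a) / (log X)^U` in absolute value. -/
theorem result (F : ℤ[X]) (hF : 2 ≤ F.natDegree) (U C K : ℕ) :
    ∃ B X₀ : ℕ, ∀ X : ℕ, X₀ ≤ X →
    (∀ w : ℤ → ℂ, (∀ m, ‖w m‖ ≤ 1) →
      ∃ Bad : Finset ℤ, (#Bad : ℝ) ≤ X / Real.log X ^ U ∧ ∀ k : ℤ, |k| ≤ X → k ∉ Bad →
        ∀ q : ℕ, 1 ≤ q → (q : ℝ) ≤ Real.log X ^ K → ∀ r a b : ℤ, Real.log X ^ B ≤ (b : ℝ) - a →
        (∀ m ∈ Ioc a b, |((F.eval m + k : ℤ) : ℝ)| ≤
          ((b : ℝ) - a) * (X : ℝ) ^ (1 - 1 / (F.natDegree : ℝ)) * Real.log X ^ C) →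
          ‖∑ m ∈ (Ioc a b).filter (fun m => (q : ℤ) ∣ m - r), w m * ((lam (F.eval m + k) : ℤ) : ℂ)‖ ≤
            ((b : ℝ) - a) / Real.log X ^ U ∧
          ‖∑ m ∈ (Ioc a b).filter (fun m => (q : ℤ) ∣ m - r),
            w m * ((ArithmeticFunction.moebius (F.eval m + k).natAbs : ℤ) : ℂ)‖ ≤ ((b : ℝ) - a) / Real.log X ^ U) ∧
    (∀ G : ℤ[X],
      ∃ Bad : Finset ℤ, (#Bad : ℝ) ≤ X / Real.log X ^ U ∧ ∀ k : ℤ, |k| ≤ X → k ∉ Bad →
        ∀ q : ℕ, 1 ≤ q → (q : ℝ) ≤ Real.log X ^ K → ∀ r a b : ℤ, Real.log X ^ B ≤ (b : ℝ) - a →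
        (∀ m ∈ Ioc a b, |((F.eval m + k : ℤ) : ℝ)| ≤
          ((b : ℝ) - a) * (X : ℝ) ^ (1 - 1 / (F.natDegree : ℝ)) * Real.log X ^ C) →
          |∑ m ∈ (Ioc a b).filter (fun m => (q : ℤ) ∣ m - r), (lam ((G * (F + Polynomial.C k)).eval m) : ℝ)| ≤
            ((b : ℝ) - a) / Real.log X ^ U) := by
  classical
  obtain ⟨d, hd⟩ : ∃ d, F.natDegree = d + 1 := ⟨F.natDegree - 1, by omega⟩
  obtain ⟨B, X₀, h0⟩ := Pool.Agent.Q156.BW.both_rate d (by omega) F hd U C K
  have main : ∀ N : ℕ, X₀ ≤ N →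
    ∀ w : ℤ → ℂ, (∀ m, ‖w m‖ ≤ 1) →
      ∃ Bad : Finset ℤ, (#Bad : ℝ) ≤ N / Real.log N ^ U ∧ ∀ k : ℤ, |k| ≤ N → k ∉ Bad →
        ∀ q : ℕ, 1 ≤ q → (q : ℝ) ≤ Real.log N ^ K → ∀ r a b : ℤ, Real.log N ^ B ≤ (b : ℝ) - a →
        (∀ m ∈ Ioc a b, |((F.eval m + k : ℤ) : ℝ)| ≤
          ((b : ℝ) - a) * (N : ℝ) ^ (1 - 1 / (F.natDegree : ℝ)) * Real.log N ^ C) →
          ‖∑ m ∈ (Ioc a b).filter (fun m => (q : ℤ) ∣ m - r), w m * ((lam (F.eval m + k) : ℤ) : ℂ)‖ ≤
            ((b : ℝ) - a) / Real.log N ^ U ∧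
          ‖∑ m ∈ (Ioc a b).filter (fun m => (q : ℤ) ∣ m - r),
            w m * ((ArithmeticFunction.moebius (F.eval m + k).natAbs : ℤ) : ℂ)‖ ≤ ((b : ℝ) - a) / Real.log N ^ U := by
    intro N hN w hw
    obtain ⟨Bad, hB, g⟩ := h0 N hN w hw
    have hrt := rt_eq d N F.natDegree hd
    rw [hrt] at g
    refine ⟨Bad, hB, fun k hk hkB q hq hqK r a b hab hv => ?_⟩
    have hkI : k ∈ Icc (-(N : ℤ)) N := by
      rw [mem_Icc, ← abs_le]
      exact hk
    obtain ⟨a1, a2⟩ := g k hkI hkB q hq hqK r a b hab (fun m hm => by rw [← mul_assoc]; exact hv m hm)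
    constructor
    · refine le_trans (le_of_eq ?_) a1
      congr 1
      refine sum_congr rfl fun m _ => ?_
      rw [← lam_cast, Complex.ofReal_intCast]
    · refine le_trans (le_of_eq ?_) a2
      congr 1
  refine ⟨B, X₀, fun N hN => ⟨main N hN, fun G => ?_⟩⟩
  obtain ⟨Bad, hB, g⟩ := main N hN (fun m => ((lam (G.eval m) : ℤ) : ℂ)) (fun m => lam_abs _)
  refine ⟨Bad, hB, fun k hk hkB q hq hqK r a b hab hv => ?_⟩
  have a1 := (g k hk hkB q hq hqK r a b hab hv).1
  have e : ∑ m ∈ (Ioc a b).filter (fun m => (q : ℤ) ∣ m - r), ((lam (G.eval m) : ℤ) : ℂ) * ((lam (F.eval m + k) : ℤ) : ℂ) =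
      (((∑ m ∈ (Ioc a b).filter (fun m => (q : ℤ) ∣ m - r), lam ((G * (F + Polynomial.C k)).eval m) : ℤ)) : ℂ) := by
    push_cast
    refine sum_congr rfl fun m _ => ?_
    rw [Polynomial.eval_mul, Polynomial.eval_add, Polynomial.eval_C, lam_mul]
    push_cast
    rfl
  rw [e, Complex.norm_intCast] at a1
  push_cast at a1
  exact a1

end Pool.Agent.Results.MP_648c71_nt.FixedFactor
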