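import Pool.Agent.Q163.HC.PolyAe
import Pool.Agent.Q163.HC.Sqf
import Pool.Agent.Q163.EX.Exp

set_option autoImplicit false

/-!
# Power saving at all squarefree polynomials for almost every completely multiplicative twist

Let `χ` be the completely multiplicative function with independent fair signs at the primes. For almost
every `χ`, and all `χ'` equal to `χ` at all but finitely many primes, the function `λ χ'` satisfies the
conjecture of the problem with a power saving, uniformly in the polynomial and in the progression: for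
large `X` the sum of `λ χ'` over the values `f (b + q k)`, `k ≤ L`, is at most `L ^ (3/4) X ^ ε` for ALL
polynomials `f` of degree `1, ..., d`, squarefree over the rationals, with coefficients up to `X ^ A`,
all `|b| ≤ X ^ A`, `q ≤ X ^ A` and `L ≤ X`.
-/

namespace Pool.Agent.Results.MP_648c71_nt.PowerSavingTwists

open Finset Filter Topology MeasureTheory Polynomial Pool.Agent.Q163.RP Pool.Agent.Q163.RX
  Pool.Agent.Q163.GC Pool.Agent.Q163.HC

/-- the completely multiplicative function with the value `1` or `-1` at the prime `p` according to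
`ω p` -/
noncomputable def chi (ω : ℕ → Bool) (n : ℕ) : ℝ :=
  ∏ p ∈ n.primeFactors, (if ω p = true then 1 else -1) ^ n.factorization p

/-- the Liouville function on the integers, `0` at `0` -/
noncomputable def lam (n : ℤ) : ℝ :=
  if n = 0 then 0 else (-1) ^ ArithmeticFunction.cardFactors n.natAbs

/-- the function `λ χ` on the integers -/
noncomputable def tw (ω : ℕ → Bool) (n : ℤ) : ℝ := lam n * chi ω n.natAbs

/-- the statement of the problem for a function `g` in place of the Liouville function -/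
def Chowla (g : ℤ → ℝ) : Prop :=
  ∀ f : ℤ[X], f.IsPrimitive → Squarefree f → 0 < f.natDegree → ∀ a q : ℕ, 0 < q →
    Tendsto (fun N : ℕ => (∑ t ∈ (Icc 1 N).filter (fun t => t % q = a % q),
      g (f.eval (t : ℤ))) / (N : ℝ)) atTop (𝓝 0)

/-- the admissible polynomials and progressions at the scale `X` -/
def Adm (d A X : ℕ) (f : ℤ[X]) (b : ℤ) (q L : ℕ) : Prop :=
  Squarefree (f.map (Int.castRingHom ℚ)) ∧ 1 ≤ f.natDegree ∧ f.natDegree ≤ d ∧
    (∀ i, |f.coeff i| ≤ (X : ℤ) ^ A) ∧ |b| ≤ (X : ℤ) ^ A ∧ 1 ≤ q ∧ q ≤ X ^ A ∧ L ≤ X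

/-- power saving, uniform in the polynomial, in the progression and in the length -/
def Saving (g : ℤ → ℝ) : Prop :=
  ∀ (d A : ℕ) (ε : ℝ), 0 < ε → ∀ᶠ X : ℕ in atTop, ∀ (f : ℤ[X]) (b : ℤ) (q L : ℕ),
    Adm d A X f b q L →
      |∑ k ∈ Icc 1 L, g (f.eval (b + q * (k : ℤ)))| ≤ (L : ℝ) ^ (3 / 4 : ℝ) * (X : ℝ) ^ ε

lemma ch_eq (ω : ℕ → Bool) (n : ℕ) : ch ω n = chi ω n := by
  unfold ch chi mult sg es sgn
  refine Finset.prod_congr rfl fun p _ => ?_
  rw [if_pos (Set.mem_univ p)]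

lemma abs_chi (ω : ℕ → Bool) (n : ℕ) : |chi ω n| = 1 := by
  rw [← ch_eq]
  exact abs_ch ω n

/-- the weighted form -/
theorem ae_weight (w : ℤ[X] → ℤ → ℕ → ℕ → ℝ) (hw : ∀ f b q k, |w f b q k| ≤ 1) :
    ∀ᵐ ω ∂cm, ∀ (d A : ℕ) (ε : ℝ), 0 < ε → ∀ᶠ X : ℕ in atTop,
      ∀ (f : ℤ[X]) (b : ℤ) (q L : ℕ), Adm d A X f b q L →
        |∑ k ∈ Icc 1 L, w f b q k * tw ω (f.eval (b + q * (k : ℤ)))| ≤
          (L : ℝ) ^ (3 / 4 : ℝ) * (X : ℝ) ^ ε := by
  have h1 : ∀ᵐ ω ∂cm, ∀ (d A n : ℕ), ∀ᶠ R : ℕ in atTop, ∀ f : ℤ[X],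
      (f.map (Int.castRingHom ℚ)).Separable →
      1 ≤ f.natDegree → f.natDegree ≤ d + 1 → (∀ i, |f.coeff i| ≤ ((R ^ A : ℕ) : ℤ)) →
      ∀ b : ℤ, |b| ≤ ((R ^ A : ℕ) : ℤ) → ∀ q : ℕ, 1 ≤ q → q ≤ R ^ A → ∀ L : ℕ, 1 ≤ L → L ≤ R →
      |∑ k ∈ (Icc 1 L).filter (fun k => pv f b q k ≠ 0),
        (w f b q k * lam (f.eval (b + q * (k : ℤ)))) * ch ω (pv f b q k).natAbs| ≤
        (L : ℝ) ^ (3 / 4 : ℝ) * (R : ℝ) ^ (1 / ((n : ℝ) + 1)) := by
    rw [ae_all_iff]
    intro d
    rw [ae_all_iff]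
    intro A
    rw [ae_all_iff]
    intro n
    refine ae_poly_fix (fun f b q k => w f b q k * lam (f.eval (b + q * (k : ℤ)))) ?_ (d + 1) A
      (by omega) _ (by positivity)
    intro f b q k
    rw [abs_mul]
    have h2 : |lam (f.eval (b + q * (k : ℤ)))| ≤ 1 := by
      unfold lam
      split_ifs
      · rw [abs_zero]
        exact zero_le_one
      · rw [abs_pow, abs_neg, abs_one, one_pow]
    exact mul_le_one₀ (hw f b q k) (abs_nonneg _) h2
  filter_upwards [h1] with ω hω d A ε hε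
  obtain ⟨n, hn⟩ := exists_nat_one_div_lt hε
  filter_upwards [hω d A n, eventually_ge_atTop 1] with X hX hX1 f b q L hadm
  obtain ⟨ha1, ha2, ha3, ha4, ha5, ha6, ha7, ha8⟩ := hadm
  have hXX : (1 : ℝ) ≤ X := by exact_mod_cast hX1
  rcases Nat.eq_zero_or_pos L with hL | hL
  · rw [hL]
    simp only [Icc_eq_empty_of_lt zero_lt_one, sum_empty, abs_zero]
    positivity
  have h2 := hX f (PerfectField.separable_iff_squarefree.2 ha1) ha2 (by omega)
    (fun i => by push_cast; exact ha4 i) b (by push_cast; exact ha5) q ha6 ha7 L hL ha8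
  have h3 : ∑ k ∈ Icc 1 L, w f b q k * tw ω (f.eval (b + q * (k : ℤ))) =
      ∑ k ∈ (Icc 1 L).filter (fun k => pv f b q k ≠ 0),
        (w f b q k * lam (f.eval (b + q * (k : ℤ)))) * ch ω (pv f b q k).natAbs := by
    rw [sum_filter]
    refine sum_congr rfl fun k _ => ?_
    split_ifs with h
    · unfold tw
      rw [ch_eq]
      unfold pv
      ring
    · have h4 : f.eval (b + q * (k : ℤ)) = 0 := not_not.1 h
      unfold tw lam
      rw [h4, if_pos rfl]
      ring
  rw [h3]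
  refine h2.trans (mul_le_mul_of_nonneg_left ?_ (by positivity))
  exact Real.rpow_le_rpow_of_exponent_le hXX hn.le

theorem ae_saving : ∀ᵐ ω ∂cm, Saving (tw ω) := by
  filter_upwards [ae_weight (fun _ _ _ _ => 1) (fun _ _ _ _ => by rw [abs_one])] with ω hω
  intro d A ε hε
  filter_upwards [hω d A ε hε] with X hX f b q L h
  have := hX f b q L h
  simpa using this

theorem chowla_of (g : ℤ → ℝ) (hg : Saving g) : Chowla g := by
  intro f _ hs hd a q hq
  obtain ⟨H, hH⟩ : ∃ H : ℕ, ∀ i, |f.coeff i| ≤ (H : ℤ) := by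
    refine ⟨∑ i ∈ f.support, (f.coeff i).natAbs, fun i => ?_⟩
    by_cases hi : i ∈ f.support
    · have := single_le_sum (f := fun i => (f.coeff i).natAbs) (fun i _ => Nat.zero_le _) hi
      rw [← Int.natCast_natAbs]
      exact_mod_cast this
    · rw [notMem_support_iff.1 hi, abs_zero]
      positivity
  have h1 := hg f.natDegree 1 (1 / 8) (by norm_num)
  have h2 : ∀ᶠ N : ℕ in atTop, |(∑ t ∈ (Icc 1 N).filter (fun t => t % q = a % q),
      g (f.eval (t : ℤ))) / (N : ℝ)| ≤ (N : ℝ) ^ (-(1 / 8) : ℝ) := by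
    filter_upwards [h1, eventually_ge_atTop H, eventually_ge_atTop q, eventually_ge_atTop 1]
      with N hN1 hN2 hN3 hN4
    obtain ⟨a1, ha1, ha2, ha3⟩ := sum_class (fun t => g (f.eval t)) N a q hq
    rw [ha3]
    have hN0 : (0 : ℝ) < N := by exact_mod_cast hN4
    have hL : (N + q - a1) / q ≤ N := by
      rw [Nat.div_le_iff_le_mul_add_pred hq]
      have : N ≤ q * N := Nat.le_mul_of_pos_left N hq
      omega
    have h3 := hN1 f ((a1 : ℤ) - q) q ((N + q - a1) / q) ⟨sqf_map f hs, hd, le_rfl, fun i =>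
      (hH i).trans (by rw [pow_one]; exact_mod_cast hN2), by
        rw [pow_one, abs_le]
        constructor <;> omega, hq, by rw [pow_one]; exact hN3, hL⟩
    rw [abs_div, abs_of_pos hN0, div_le_iff₀ hN0]
    refine h3.trans ?_
    have h4 : (((N + q - a1) / q : ℕ) : ℝ) ≤ N := by exact_mod_cast hL
    calc (((N + q - a1) / q : ℕ) : ℝ) ^ (3 / 4 : ℝ) * (N : ℝ) ^ (1 / 8 : ℝ) ≤
          (N : ℝ) ^ (3 / 4 : ℝ) * (N : ℝ) ^ (1 / 8 : ℝ) :=
          mul_le_mul_of_nonneg_right (Real.rpow_le_rpow (by positivity) h4 (by norm_num))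
            (by positivity)
      _ = (N : ℝ) ^ (-(1 / 8) : ℝ) * N := by
          nth_rewrite 4 [← Real.rpow_one (N : ℝ)]
          rw [← Real.rpow_add hN0, ← Real.rpow_add hN0]
          norm_num
  have h3 : Tendsto (fun N : ℕ => (N : ℝ) ^ (-(1 / 8) : ℝ)) atTop (𝓝 0) :=
    (tendsto_rpow_neg_atTop (by norm_num)).comp tendsto_natCast_atTop_atTop
  exact squeeze_zero_norm' h2 h3

/-- **Power saving at all squarefree polynomials for almost every completely multiplicative twist.** -/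
theorem result :
    -- (1) almost every function and all its finite modifications, uniformly
    (∀ᵐ ω ∂cm, ∀ ω' : ℕ → Bool, {p | ω' p ≠ ω p}.Finite → Saving (tw ω') ∧ Chowla (tw ω')) ∧
    -- (2) the values at the small primes can be those of the Liouville function
    (∀ y : ℕ, ∃ ω : ℕ → Bool, (∀ p ≤ y, ω p = true) ∧ Saving (tw ω) ∧ Chowla (tw ω)) ∧
    -- (3) weights depending on the polynomial, the progression and the argument
    (∀ w : ℤ[X] → ℤ → ℕ → ℕ → ℝ, (∀ f b q k, |w f b q k| ≤ 1) →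
      ∀ᵐ ω ∂cm, ∀ (d A : ℕ) (ε : ℝ), 0 < ε → ∀ᶠ X : ℕ in atTop,
        ∀ (f : ℤ[X]) (b : ℤ) (q L : ℕ), Adm d A X f b q L →
          |∑ k ∈ Icc 1 L, w f b q k * tw ω (f.eval (b + q * (k : ℤ)))| ≤
            (L : ℝ) ^ (3 / 4 : ℝ) * (X : ℝ) ^ ε) := by
  have h0 : ∀ᵐ ω ∂cm, ∀ ω' : ℕ → Bool, {p | ω' p ≠ ω p}.Finite →
      Saving (tw ω') ∧ Chowla (tw ω') :=
    Pool.Agent.Q163.EX.ae_fin (by
      filter_upwards [ae_saving] with ω hω
      exact ⟨hω, chowla_of _ hω⟩)
  refine ⟨h0, fun y => ?_, ae_weight⟩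
  obtain ⟨ω, hω⟩ := h0.exists
  refine ⟨fun p => if p ≤ y then true else ω p, fun p hp => by simp [hp], hω _ ?_⟩
  refine (Set.finite_Iic y).subset fun p hp => ?_
  by_contra hc
  simp only [Set.mem_Iic] at hc
  exact hp (by simp [hc])

end Pool.Agent.Results.MP_648c71_nt.PowerSavingTwists
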