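import Pool.Agent.Q132.PV.F

/-!
# Chowla's conjecture for polynomials reduces to one-sided bounds for polynomials without small prime factors

Objects from Mathlib used in the statement: `Polynomial.eval n f = f(n)`; `f.IsPrimitive`: the coefficients have no
common prime factor; `Squarefree f`: no square of a non-unit of `ℤ[X]` divides `f`; `h.comp (X + C t)`: the
polynomial `h(X + t)`; `Polynomial.aeval z F`: the value of `F` at the complex number `z`;
`ArithmeticFunction.cardFactors m = Ω(m)`; `List.TFAE`: the statements are equivalent.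
-/

set_option autoImplicit false

open Finset Polynomial

namespace Pool.Agent.Results.MP_648c71_nt.SmallPrimesRemoved

/-- the Liouville function on the integers, `λ(-m) = λ(m)`, `λ(0) = 0` -/
noncomputable def lam (m : ℤ) : ℝ := if m = 0 then 0 else (-1) ^ (ArithmeticFunction.cardFactors m.natAbs)

/-- Q1, the formula of the frozen statement -/
def Chowla : Prop := ∀ f : ℤ[X], f.IsPrimitive → Squarefree f → 0 < f.natDegree →
  ∀ a q : ℕ, 0 < q →
    Filter.Tendsto
      (fun N : ℕ => (∑ t ∈ (Icc 1 N).filter (fun t => t % q = a % q),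
        ((-1 : ℝ) ^ (ArithmeticFunction.cardFactors (f.eval (t : ℤ)).natAbs))) / (N : ℝ))
      Filter.atTop (nhds 0)

/-- Bochner almost periodic sequences: the translates of `w` are totally bounded for the supremum norm -/
def AlmostPeriodic (w : ℕ → ℂ) : Prop :=
  ∀ ε : ℝ, 0 < ε → ∃ K : ℕ, ∀ s : ℕ, ∃ k < K, ∀ m : ℕ, ‖w (m + s) - w (m + k)‖ ≤ ε

/-- the conjecture with almost periodic weights -/
def Twisted : Prop := ∀ f : ℤ[X], f.IsPrimitive → Squarefree f → 0 < f.natDegree →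
  ∀ w : ℕ → ℂ, AlmostPeriodic w → Asymptotics.IsLittleO Filter.atTop
    (fun N : ℕ => ∑ n ∈ Icc 1 N, ((lam (f.eval (n : ℤ)) : ℝ) : ℂ) * w n) (fun N : ℕ => (N : ℝ))

/-- sets of scales with bounded ratios: every interval `[x, B x]` contains an element -/
def Scales (A : Set ℕ) : Prop := ∃ B : ℕ, ∀ x : ℕ, 1 ≤ x → ∃ N ∈ A, x ≤ N ∧ N ≤ B * x

/-- any two distinct complex roots are at distance at least `D` -/
def RootsApart (D : ℝ) (f : ℤ[X]) : Prop :=
  ∀ x y : ℂ, aeval x f = 0 → aeval y f = 0 → x ≠ y → D ≤ ‖x - y‖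

/-- the upper bound `limsup (1 / N) ∑ λ(F(n)) ≤ 0` along `A`, for `F = h(X) h(X + t)` only, where `h` is primitive of
positive degree, its constant coefficient is coprime to `M` and all the others are divisible by `M` (so that
`F(n) ≡ h(0) ^ 2` modulo `M` for all `n`, and no prime divisor of `M` divides a value of `F`), `t` is positive and a
difference of two elements of `S h`, and the roots of `F` are simple and at mutual distances at least `D` -/
def WeakUnit (M : ℕ) (D : ℝ) (S A : ℤ[X] → Set ℕ) : Prop :=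
  ∀ h : ℤ[X], h.IsPrimitive → 1 ≤ h.natDegree → (∀ i, 1 ≤ i → (M : ℤ) ∣ h.coeff i) →
    IsCoprime (M : ℤ) (h.coeff 0) →
    ∀ s ∈ S h, ∀ s' ∈ S h, ∀ t : ℕ, 1 ≤ t → s' = s + t →
    Squarefree (h * h.comp (X + C (t : ℤ))) → RootsApart D (h * h.comp (X + C (t : ℤ))) →
    ∀ ε : ℝ, 0 < ε → ∃ N₀ : ℕ, ∀ N ∈ A h, N₀ ≤ N →
      ∑ n ∈ Icc 1 N, lam ((h * h.comp (X + C (t : ℤ))).eval (n : ℤ)) ≤ ε * N

/-- the two normalizations of the Liouville function differ at finitely many `n` only -/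
lemma frozen_diff (f : ℤ[X]) (hf : f ≠ 0) (c : ℕ → Prop) [DecidablePred c] : ∃ K : ℝ, ∀ N : ℕ,
    |∑ n ∈ (Icc 1 N).filter c, (-1 : ℝ) ^ (ArithmeticFunction.cardFactors (f.eval (n : ℤ)).natAbs) -
      ∑ n ∈ (Icc 1 N).filter c, lam (f.eval (n : ℤ))| ≤ K := by
  classical
  refine ⟨(f.roots.toFinset.card : ℝ), fun N => ?_⟩
  rw [← sum_sub_distrib]
  have h1 : ∀ n ∈ (Icc 1 N).filter c, |(-1 : ℝ) ^ (ArithmeticFunction.cardFactors (f.eval (n : ℤ)).natAbs) -
      lam (f.eval (n : ℤ))| ≤ if (n : ℤ) ∈ f.roots.toFinset then (1 : ℝ) else 0 := by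
    intro n _
    unfold lam
    by_cases h : f.eval (n : ℤ) = 0
    · have h2 : (n : ℤ) ∈ f.roots.toFinset := by
        rw [Multiset.mem_toFinset, mem_roots hf]
        exact h
      rw [if_pos h, if_pos h2, h]
      simp
    · rw [if_neg h, sub_self, abs_zero]
      split_ifs <;> norm_num
  calc _ ≤ ∑ n ∈ (Icc 1 N).filter c, |(-1 : ℝ) ^ (ArithmeticFunction.cardFactors (f.eval (n : ℤ)).natAbs) -
        lam (f.eval (n : ℤ))| := abs_sum_le_sum_abs _ _
    _ ≤ ∑ n ∈ (Icc 1 N).filter c, (if (n : ℤ) ∈ f.roots.toFinset then (1 : ℝ) else 0) := sum_le_sum h1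
    _ = ((((Icc 1 N).filter c).filter (fun n : ℕ => (n : ℤ) ∈ f.roots.toFinset)).card : ℝ) := by
        rw [← sum_filter, sum_const, nsmul_eq_mul, mul_one]
    _ ≤ (f.roots.toFinset.card : ℝ) := by
        have : (((Icc 1 N).filter c).filter (fun n : ℕ => (n : ℤ) ∈ f.roots.toFinset)).card ≤
            f.roots.toFinset.card := by
          apply Finset.card_le_card_of_injOn (fun n : ℕ => (n : ℤ))
          · intro n hn
            exact (mem_filter.1 hn).2
          · intro x _ y _ h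
            have h' : (x : ℤ) = (y : ℤ) := h
            exact_mod_cast h'
        exact_mod_cast this

lemma twisted_chowla (h : Twisted) : Chowla := by
  intro f hp hs hd a q hq
  obtain ⟨K, hK⟩ := frozen_diff f hs.ne_zero (fun t => t % q = a % q)
  have hex : AlmostPeriodic (fun n : ℕ =>
      if n ≡ a [MOD q] then Complex.exp (2 * Real.pi * Complex.I * (0 : ℝ) * n) else 0) :=
    Q132.PV.ap_example a q hq 0
  have h1 := h f hp hs hd _ hex
  rw [Asymptotics.isLittleO_iff] at h1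
  rw [Metric.tendsto_nhds]
  intro ε hε
  obtain ⟨N₁, hN₁⟩ := exists_nat_ge (K / (ε / 4))
  filter_upwards [h1 (show (0 : ℝ) < ε / 4 by positivity), Filter.eventually_ge_atTop (max N₁ 1)] with N hN hN'
  have hN0 : (0 : ℝ) < N := by exact_mod_cast (le_max_right _ _).trans hN'
  have e1 : ∑ n ∈ Icc 1 N, ((lam (f.eval (n : ℤ)) : ℝ) : ℂ) *
      (if n ≡ a [MOD q] then Complex.exp (2 * Real.pi * Complex.I * (0 : ℝ) * n) else 0) =
      ((∑ n ∈ (Icc 1 N).filter (fun t => t % q = a % q), lam (f.eval (n : ℤ)) : ℝ) : ℂ) := by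
    rw [Complex.ofReal_sum, sum_filter]
    refine sum_congr rfl fun n _ => ?_
    by_cases hn : n % q = a % q
    · rw [if_pos hn, if_pos (show n ≡ a [MOD q] from hn)]
      simp
    · rw [if_neg hn, if_neg (show ¬ n ≡ a [MOD q] from hn), mul_zero]
  rw [e1, Complex.norm_real, Real.norm_eq_abs, Real.norm_eq_abs, abs_of_pos hN0] at hN
  have h3 := hK N
  have h4 : K ≤ ε / 4 * N := by
    have : K / (ε / 4) ≤ N := hN₁.trans (by exact_mod_cast (le_max_left _ _).trans hN')
    rw [div_le_iff₀ (by positivity)] at this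
    linarith
  rw [Real.dist_eq, sub_zero, abs_div, abs_of_pos hN0, div_lt_iff₀ hN0]
  have h5 : 0 < ε * N := by positivity
  rw [abs_le] at hN h3
  rw [abs_lt]
  constructor <;> nlinarith [hN.1, hN.2, h3.1, h3.2]

lemma chowla_weak (h : Chowla) (M : ℕ) (D : ℝ) (S A : ℤ[X] → Set ℕ) : WeakUnit M D S A := by
  intro p hp hd _ _ s _ s' _ t _ _ hsq _ ε hε
  set F : ℤ[X] := p * p.comp (X + C (t : ℤ)) with hF
  have hFp : F.IsPrimitive := hp.mul (Q132.PV.prim_comp p hp _)
  have hp0 : p ≠ 0 := by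
    rintro rfl
    simp at hd
  have hFd : 0 < F.natDegree := by
    have h0 : F ≠ 0 := hsq.ne_zero
    have h1 : p.comp (X + C (t : ℤ)) ≠ 0 := fun h => h0 (by rw [hF, h, mul_zero])
    rw [hF, natDegree_mul hp0 h1]
    omega
  have h1 := h F hFp hsq hFd 0 1 one_pos
  obtain ⟨K, hK⟩ := frozen_diff F hsq.ne_zero (fun t => t % 1 = 0 % 1)
  rw [Metric.tendsto_nhds] at h1
  obtain ⟨N₂, hN₂⟩ := Filter.eventually_atTop.1 (h1 (ε / 2) (half_pos hε))
  obtain ⟨N₁, hN₁⟩ := exists_nat_ge (K / (ε / 2))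
  refine ⟨max (max N₁ N₂) 1, fun N _ hN => ?_⟩
  have hN0 : (0 : ℝ) < N := by exact_mod_cast (le_max_right _ _).trans hN
  have h3 := hK N
  have h4 := hN₂ N (((le_max_right _ _).trans (le_max_left _ _)).trans hN)
  have h5 : K ≤ ε / 2 * N := by
    have : K / (ε / 2) ≤ N := hN₁.trans (by exact_mod_cast ((le_max_left _ _).trans (le_max_left _ _)).trans hN)
    rw [div_le_iff₀ (by positivity)] at this
    linarith
  have e1 : (Icc 1 N).filter (fun t => t % 1 = 0 % 1) = Icc 1 N := by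
    rw [filter_true_of_mem]
    intro x _
    rw [Nat.mod_one, Nat.zero_mod]
  rw [e1] at h3 h4
  rw [Real.dist_eq, sub_zero, abs_div, abs_of_pos hN0, div_lt_iff₀ hN0] at h4
  rw [abs_le] at h3
  rw [abs_lt] at h4
  linarith [h3.1, h4.2]

lemma weak_twisted (M : ℕ) (hM : 1 ≤ M) (D : ℝ) (S A : ℤ[X] → Set ℕ) (hS : ∀ h, (S h).Infinite)
    (hA : ∀ h, Scales (A h)) (hW : WeakUnit M D S A) : Twisted := by
  intro f _ hs hd w hw
  rw [Asymptotics.isLittleO_iff]
  intro ε hε
  obtain ⟨x₀, hx₀⟩ := Q132.PV.unit_strong M hM D S A hS hA hW f hs hd w hw ε hε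
  filter_upwards [Filter.eventually_ge_atTop x₀] with x hx
  rw [Real.norm_eq_abs, abs_of_nonneg (Nat.cast_nonneg (α := ℝ) x)]
  exact hx₀ x hx

theorem result :
    (∀ (M : ℕ) (D : ℝ) (S A : ℤ[X] → Set ℕ), 1 ≤ M → (∀ h, (S h).Infinite) → (∀ h, Scales (A h)) →
      List.TFAE [Chowla, Twisted, WeakUnit M D S A]) ∧
    (∀ (a q : ℕ) (θ : ℝ), 1 ≤ q → AlmostPeriodic (fun n : ℕ =>
      if n ≡ a [MOD q] then Complex.exp (2 * Real.pi * Complex.I * θ * n) else 0)) := by
  refine ⟨fun M D S A hM hS hA => ?_, fun a q θ hq => Q132.PV.ap_example a q hq θ⟩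
  tfae_have 1 → 3 := fun h => chowla_weak h M D S A
  tfae_have 3 → 2 := fun h => weak_twisted M hM D S A hS hA h
  tfae_have 2 → 1 := twisted_chowla
  tfae_finish

end Pool.Agent.Results.MP_648c71_nt.SmallPrimesRemoved
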