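import Pool.Agent.Q197.PS.R

/-! # The Liouville function at polynomial values along random unions of residue classes

For an integer polynomial `f` the sums of `λ(f(n))` over all arithmetic progressions are `o(X)` as
soon as, for arbitrarily divisible `P`, more than a proportion `K / √P` (any `K`) of the `2 ^ P` unions
of residue classes modulo `P` have the sum `o(X)`. If the mean of `λ(f(n))` along one progression is
at least `c` infinitely often, then only a proportion `(10 + 54 / c) / √P` of these unions can have a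
sum which is `o(X)`, and only a proportion `d (10 + 54 / c) / √p` of the unions of classes modulo a
prime `p` can be such that the sum over the `n` whose VALUE `f(n)` is in the union is `o(X)`.
Without any hypothesis, for all but a proportion `1 / t ^ 2` of the unions the sum differs from half
the full sum by at most `t X / √P` (`t d X / √p` for unions of classes of values). -/

set_option autoImplicit false

open Finset Filter Topology Polynomial

namespace Pool.Agent.Results.MP_648c71_nt.UnionsOfClasses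

open Q197.PS

/-- Liouville's function on the integers, with value `0` at `0`. -/
noncomputable def lam (m : ℤ) : ℝ :=
  if m = 0 then 0 else (-1) ^ (ArithmeticFunction.cardFactors m.natAbs)

/-- `1 / N` times the sum of `λ(f(n))` over the `n ≤ N` whose residue modulo `P` is in `A`. -/
noncomputable def mean (f : ℤ[X]) (P : ℕ) (A : Finset ℕ) (N : ℕ) : ℝ :=
  (∑ n ∈ (Icc 1 N).filter (fun n => n % P ∈ A), lam (f.eval (n : ℤ))) / N

/-- `1 / N` times the sum of `λ(f(n))` over all `n ≤ N`. -/
noncomputable def full (f : ℤ[X]) (N : ℕ) : ℝ := (∑ n ∈ Icc 1 N, lam (f.eval (n : ℤ))) / N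

/-- `1 / N` times the sum of `λ(f(n))` over the `n ≤ N` such that the residue of `f(n)` modulo `p`
is in `A`. -/
noncomputable def meanV (f : ℤ[X]) (p : ℕ) (A : Finset ℕ) (N : ℕ) : ℝ :=
  (∑ n ∈ (Icc 1 N).filter (fun n : ℕ => (f.eval (n : ℤ) % p).toNat ∈ A), lam (f.eval (n : ℤ))) / N

open Classical in
/-- The number of the sets `A` of residues modulo `P` with `mean f P A N → 0`. -/
noncomputable def good (f : ℤ[X]) (P : ℕ) : ℕ :=
  ((range P).powerset.filter (fun A => Tendsto (mean f P A) atTop (𝓝 0))).card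

open Classical in
/-- The number of the sets `A` of residues modulo `p` with `meanV f p A N → 0`. -/
noncomputable def goodV (f : ℤ[X]) (p : ℕ) : ℕ :=
  ((range p).powerset.filter (fun A => Tendsto (meanV f p A) atTop (𝓝 0))).card

lemma lam_le (m : ℤ) : |lam m| ≤ 1 := by
  unfold lam
  split_ifs
  · simp
  · rw [abs_pow, abs_neg, abs_one, one_pow]

/-- the sequence -/
noncomputable def u (f : ℤ[X]) (n : ℕ) : ℝ := lam (f.eval (n : ℤ))

lemma mean_eq (f : ℤ[X]) (P : ℕ) (A : Finset ℕ) (N : ℕ) :
    mean f P A N = avS (ces (u f)) (fun N => N) P A N := by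
  unfold mean avS ces u
  rw [sum_div]

lemma meanV_eq (f : ℤ[X]) (p : ℕ) (A : Finset ℕ) (N : ℕ) :
    meanV f p A N = avR (ces (u f)) (fun N => N) (res f p) A N := by
  unfold meanV avR ces u res
  rw [sum_div]

lemma full_eq (f : ℤ[X]) (N : ℕ) : full f N = ∑ n ∈ Icc 1 N, ces (u f) N n := by
  unfold full ces u
  rw [sum_div]

lemma good_eq (f : ℤ[X]) (P : ℕ) : good f P = nS atTop (ces (u f)) (fun N => N) P := by
  classical
  unfold good nS
  have h : ∀ A, mean f P A = avS (ces (u f)) (fun N => N) P A := fun A => funext (mean_eq f P A)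
  simp only [h]

lemma one_eq (f : ℤ[X]) (q a N : ℕ) : mean f q {a} N = cls (ces (u f)) (fun N => N) q N a := by
  rw [mean_eq, avS_eq, sum_singleton]

theorem result (f : ℤ[X]) :
    ((∀ q : ℕ, 0 < q → ∀ a < q, Tendsto (mean f q {a}) atTop (𝓝 0)) ↔
      ∀ q : ℕ, 0 < q → ∀ K : ℝ, ∃ P : ℕ, 0 < P ∧ q ∣ P ∧ K * 2 ^ P / √P ≤ good f P) ∧
    (∀ c : ℝ, 0 < c → ∀ q a : ℕ, (∃ᶠ N in atTop, c ≤ |mean f q {a} N|) →
      ∀ P : ℕ, 0 < P → q ∣ P → (good f P : ℝ) ≤ (10 + 54 / c) * 2 ^ P / √P) ∧
    (∀ c : ℝ, 0 < c → (∃ᶠ N in atTop, c ≤ |full f N|) → ∀ p : ℕ, p.Prime →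
      (f.map (Int.castRingHom (ZMod p))).natDegree ≠ 0 →
      (goodV f p : ℝ) ≤ f.natDegree * (10 + 54 / c) * 2 ^ p / √p) ∧
    (∀ P N : ℕ, 0 < P → P ≤ N → ∀ t : ℝ, 0 < t →
      (((range P).powerset.filter (fun A =>
        2 * t / √P ≤ |2 * mean f P A N - full f N|)).card : ℝ) ≤ 2 ^ P / t ^ 2) ∧
    (∀ p N : ℕ, p.Prime → (f.map (Int.castRingHom (ZMod p))).natDegree ≠ 0 → p ≤ N →
      ∀ t : ℝ, 0 < t → (((range p).powerset.filter (fun A =>
        2 * f.natDegree * t / √p ≤ |2 * meanV f p A N - full f N|)).card : ℝ) ≤ 2 ^ p / t ^ 2) := by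
  classical
  have hu : ∀ n, 1 ≤ n → |u f n| ≤ 1 := fun n _ => lam_le _
  have hcl := ces_hcl hu
  refine ⟨?_, ?_, ?_, ?_, ?_⟩
  · have h1 := classes_iff (l := atTop) (ces (u f)) (fun N => N) (by norm_num : (1 : ℝ) ≤ 2) hcl
    have h2 : ∀ q a, mean f q {a} = fun N => cls (ces (u f)) (fun N => N) q N a :=
      fun q a => funext (one_eq f q a)
    simp_rw [h2, good_eq]
    exact h1
  · intro c hc q a hfr P hP hd
    rw [good_eq]
    have h1 := few_nS (l := atTop) (ces (u f)) (fun N => N) hP hc (by norm_num : (1 : ℝ) ≤ 2) (hcl P hP)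
      (hfr.mono fun N hN => by
        rw [one_eq] at hN
        exact hN.trans (cls_le (ces (u f)) (fun N => N) hP hd a N))
    refine h1.trans (le_of_eq ?_)
    ring
  · intro c hc hfr p hp hf
    have hd1 : 1 ≤ f.natDegree := by
      have h1 : (f.map (Int.castRingHom (ZMod p))).natDegree ≤ f.natDegree := natDegree_map_le
      omega
    have hd1' : (1 : ℝ) ≤ f.natDegree := by exact_mod_cast hd1
    have h1 := few_avR (l := atTop) (ces (u f)) (fun N => N) hp.pos (res f p) hc
      (by linarith : (1 : ℝ) ≤ 2 * f.natDegree)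
      ((eventually_ge_atTop p).mono fun N hN j _ => ces_clr hu f hp hf hN j)
      (hfr.mono fun N hN => by
        rw [full_eq, clr_total (ces (u f)) (fun N => N) (fun n => res_lt f hp.pos n)] at hN
        exact hN.trans (abs_sum_le_sum_abs _ _)) (fun _ => 0)
    unfold goodV
    have h2 : ∀ A, meanV f p A = fun N => avR (ces (u f)) (fun N => N) (res f p) A N - 0 := by
      intro A
      funext N
      rw [sub_zero, meanV_eq]
    simp_rw [h2]
    refine h1.trans (le_of_eq ?_)
    ring
  · intro P N hP hN t ht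
    have h1 := typical_av (ces (u f)) (fun N => N) hP (by norm_num : (0 : ℝ) < 2) N
      (fun j _ => ces_cls hu hP hN j) ht
    simp_rw [mean_eq, full_eq]
    have h2 : 2 * t / √(P : ℝ) = t * (2 / √P) := by ring
    rw [h2]
    exact h1
  · intro p N hp hf hN t ht
    have hd1 : 1 ≤ f.natDegree := by
      have h1 : (f.map (Int.castRingHom (ZMod p))).natDegree ≤ f.natDegree := natDegree_map_le
      omega
    have hd1' : (1 : ℝ) ≤ f.natDegree := by exact_mod_cast hd1
    have h1 := typical_avR (ces (u f)) (fun N => N) hp.pos (fun n => res_lt f hp.pos n)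
      (by linarith : (0 : ℝ) < 2 * f.natDegree) N (fun j _ => ces_clr hu f hp hf hN j) ht
    simp_rw [meanV_eq, full_eq]
    have h2 : 2 * (f.natDegree : ℝ) * t / √(p : ℝ) = t * (2 * f.natDegree / √p) := by ring
    rw [h2]
    exact h1

end Pool.Agent.Results.MP_648c71_nt.UnionsOfClasses
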